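import Mathlib

/-!
# Productive cellularity and `(ω₂, ω₂)`-gaps

If there is an `(ω₂, ω₂)`-gap in `P(ω)/fin`, then there is a poset `P` with `pc(P) = ℵ₀ < ℵ₁ < d(P)` such
that `ℵ₁` is not in the cellular spectrum of `P`.

`P` is the poset of finite sets of indices `F` such that `a_α ∩ b_β = ∅` for all `α, β ∈ F` (it fills
the gap) and the witness `Q` is the poset of finite sets of indices any two elements `α ≠ β` of which
satisfy `a_α ∩ b_β ≠ ∅` or `a_β ∩ b_α ≠ ∅` (it freezes the gap). Every set of at most `ℵ₁` conditions of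
`P` is σ-centered since initial segments of the gap are filled, `Q` has no antichain of size `ℵ₂`, and
`P × Q` has the antichain of the pairs `({α}, {α})`.
-/

set_option autoImplicit false

namespace Pool.Agent.Results.MP_3223b9_lc.GapPoset

open Set
open scoped Cardinal

/-- `p` and `q` are compatible -/
def Compat {P : Type} [Preorder P] (p q : P) : Prop := ∃ r, r ≤ p ∧ r ≤ q

/-- a set of pairwise incompatible elements -/
def Anti {P : Type} [Preorder P] (A : Set P) : Prop := ∀ p ∈ A, ∀ q ∈ A, p ≠ q → ¬ Compat p q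

/-- the cellularity: the supremum of the infinite cardinals `|A|`, `A` an antichain (at least `ℵ₀`) -/
noncomputable def cell (P : Type) [Preorder P] : Cardinal.{0} :=
  ⨆ A : {A : Set P // Anti A}, max ℵ₀ #A.1

/-- the cellular spectrum -/
def spec (P : Type) [Preorder P] : Set Cardinal.{0} :=
  {κ | ℵ₀ ≤ κ ∧ ∀ (Q : Type) [Preorder Q], cell Q ≤ κ → cell (P × Q) ≤ κ}

/-- the productive cellularity -/
noncomputable def pc (P : Type) [Preorder P] : Cardinal.{0} := sInf (spec P)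

/-- the density: the least infinite cardinal of the form `|D|` with `D` dense -/
noncomputable def dens (P : Type) [Preorder P] : Cardinal.{0} :=
  sInf {κ | ℵ₀ ≤ κ ∧ ∃ D : Set P, (∀ p, ∃ d ∈ D, d ≤ p) ∧ #D = κ}

/-- a well-order of type `ω₂` -/
abbrev W : Type := (Cardinal.aleph.{0} 2).ord.ToType

/-- `(a, b)` is an `(ω₂, ω₂)`-gap: both sequences are increasing mod finite, `a α` and `b α` are
disjoint, and no set separates the two sequences. -/
def IsGap (a b : W → Set ℕ) : Prop :=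
  (∀ α β, α < β → (a α \ a β).Finite ∧ (b α \ b β).Finite) ∧ (∀ α, a α ∩ b α = ∅) ∧
    ¬ ∃ C : Set ℕ, ∀ α, (a α \ C).Finite ∧ (b α ∩ C).Finite

/-! ### Cellularity -/

theorem cell_le {P : Type} [Preorder P] {κ : Cardinal.{0}} (hκ : ℵ₀ ≤ κ)
    (h : ∀ A : Set P, Anti A → #A ≤ κ) : cell P ≤ κ :=
  ciSup_le' fun A => max_le hκ (h A.1 A.2)

theorem le_cell {P : Type} [Preorder P] {A : Set P} (hA : Anti A) : #A ≤ cell P :=
  (le_max_right _ _).trans
    (le_ciSup (f := fun A : {A : Set P // Anti A} => max ℵ₀ #A.1) (Cardinal.bddAbove_range _) ⟨A, hA⟩)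

/-- the counting lemma -/
theorem count {P Q : Type} [Preorder P] [Preorder Q] {κ : Cardinal.{0}} (hκ : ℵ₀ ≤ κ)
    (hQ : cell Q ≤ κ) {A : Set (P × Q)} (hA : Anti A) {Φ : Type} (hΦ : #Φ ≤ κ) (φ : A → Φ)
    (hφ : ∀ x y : A, φ x = φ y → Compat x.1.1 y.1.1) : #A ≤ κ := by
  have h1 : ∀ c, #(φ ⁻¹' {c}) ≤ κ := by
    intro c
    have h2 : ∀ x ∈ φ ⁻¹' {c}, ∀ y ∈ φ ⁻¹' {c}, x ≠ y → ¬ Compat x.1.2 y.1.2 := by
      rintro x hx y hy hne ⟨s, hs1, hs2⟩
      obtain ⟨r, hr1, hr2⟩ := hφ x y (by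
        have h3 : φ x = c := hx
        have h4 : φ y = c := hy
        rw [h3, h4])
      exact hA x.1 x.2 y.1 y.2 (fun h => hne (Subtype.ext h)) ⟨(r, s), ⟨hr1, hs1⟩, ⟨hr2, hs2⟩⟩
    have h3 : InjOn (fun x : A => x.1.2) (φ ⁻¹' {c}) := by
      intro x hx y hy hxy
      by_contra hne
      refine h2 x hx y hy hne ⟨x.1.2, le_rfl, ?_⟩
      exact le_of_eq hxy
    have h4 : Anti ((fun x : A => x.1.2) '' (φ ⁻¹' {c})) := by
      rintro _ ⟨x, hx, rfl⟩ _ ⟨y, hy, rfl⟩ hne
      refine h2 x hx y hy ?_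
      rintro rfl
      exact hne rfl
    have h5 := le_cell h4
    rw [Cardinal.mk_image_eq_of_injOn _ _ h3] at h5
    exact h5.trans hQ
  refine (Cardinal.mk_le_mk_mul_of_mk_preimage_le φ h1).trans ?_
  exact Cardinal.mul_le_of_le hκ hΦ le_rfl

/-- every infinite `κ ≥ d(P)` is in the spectrum -/
theorem lt_dens {P : Type} [Preorder P] [Infinite P] {κ : Cardinal.{0}} (hκ : ℵ₀ ≤ κ)
    (h : κ ∉ spec P) : κ < dens P := by
  by_contra hcon
  push Not at hcon
  have hne : {κ | ℵ₀ ≤ κ ∧ ∃ D : Set P, (∀ p, ∃ d ∈ D, d ≤ p) ∧ #D = κ}.Nonempty :=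
    ⟨#(univ : Set P), by rw [Cardinal.mk_univ]; exact Cardinal.aleph0_le_mk P, univ,
      fun p => ⟨p, trivial, le_rfl⟩, rfl⟩
  obtain ⟨-, D, hD, hDcard⟩ := csInf_mem hne
  have hD' : #D ≤ κ := by
    rw [hDcard]
    exact hcon
  refine h ⟨hκ, fun Q _ hQ => cell_le hκ fun A hA => ?_⟩
  choose d hd hdle using hD
  refine count hκ hQ hA hD' (fun x => ⟨d x.1.1, hd x.1.1⟩) fun x y hxy => ?_
  have h1 : d x.1.1 = d y.1.1 := congrArg Subtype.val hxy
  refine ⟨d x.1.1, hdle _, ?_⟩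
  rw [h1]
  exact hdle _

/-! ### Posets of finite cliques -/

/-- the finite cliques of the relation `r`, ordered by reverse inclusion -/
abbrev Cl (r : W → W → Prop) : Type :=
  {F : Finset W // ∀ α ∈ F, ∀ β ∈ F, α ≠ β → r α β}ᵒᵈ

/-- the underlying finite set -/
def fs {r : W → W → Prop} (F : Cl r) : Finset W := (OrderDual.ofDual F).1

theorem compat_iff {r : W → W → Prop} (hr : ∀ α β, r α β → r β α) (F G : Cl r) :
    Compat F G ↔ ∀ α ∈ fs F, ∀ β ∈ fs G, α ≠ β → r α β := by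
  classical
  constructor
  · rintro ⟨H, h1, h2⟩ α hα β hβ hne
    exact (OrderDual.ofDual H).2 α (h1 hα) β (h2 hβ) hne
  · intro h
    refine ⟨OrderDual.toDual ⟨fs F ∪ fs G, ?_⟩, ?_, ?_⟩
    · intro α hα β hβ hne
      rcases Finset.mem_union.1 hα with h1 | h1 <;> rcases Finset.mem_union.1 hβ with h2 | h2
      · exact (OrderDual.ofDual F).2 α h1 β h2 hne
      · exact h α h1 β h2 hne
      · exact hr _ _ (h β h2 α h1 hne.symm)
      · exact (OrderDual.ofDual G).2 α h1 β h2 hne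
    · exact (Finset.subset_union_left : fs F ⊆ fs F ∪ fs G)
    · exact (Finset.subset_union_right : fs G ⊆ fs F ∪ fs G)

/-- the singleton clique -/
def sing (r : W → W → Prop) (α : W) : Cl r :=
  OrderDual.toDual ⟨{α}, by
    intro β hβ γ hγ hne
    rw [Finset.mem_singleton] at hβ hγ
    exact absurd (hβ.trans hγ.symm) hne⟩

theorem fs_sing (r : W → W → Prop) (α : W) : fs (sing r α) = {α} := rfl

theorem fs_inj {r : W → W → Prop} : Function.Injective (fs (r := r)) := by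
  intro F G h
  exact Subtype.ext (a1 := OrderDual.ofDual F) (a2 := OrderDual.ofDual G) h

instance (r : W → W → Prop) : Infinite (Cl r) := by
  have : Infinite W := by
    rw [Cardinal.infinite_iff, Cardinal.mk_ord_toType]
    exact Cardinal.aleph0_le_aleph 2
  refine Infinite.of_injective (sing r) fun α β h => ?_
  have h1 : ({α} : Finset W) = {β} := congrArg fs h
  exact Finset.singleton_injective h1

/-! ### `ω₂` -/

theorem mk_W : #W = Cardinal.aleph 2 := Cardinal.mk_ord_toType _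

theorem regular : (Cardinal.aleph.{0} 2).IsRegular := by
  have h2 : (2 : Ordinal.{0}) = 1 + 1 := one_add_one_eq_two.symm
  rw [h2]
  exact Cardinal.isRegular_aleph_add_one 1

theorem lt_two_iff {κ : Cardinal.{0}} : κ < Cardinal.aleph 2 ↔ κ ≤ Cardinal.aleph 1 := by
  have h2 : (2 : Ordinal.{0}) = 1 + 1 := one_add_one_eq_two.symm
  rw [h2, ← Cardinal.succ_aleph, Order.lt_succ_iff]

theorem mk_Iic_lt (t : W) : #(Iic t) < Cardinal.aleph 2 := by
  have h1 : Iic t = insert t (Iio t) := by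
    ext s
    simp only [mem_Iic, mem_insert_iff, mem_Iio]
    exact le_iff_eq_or_lt
  rw [h1]
  refine lt_of_le_of_lt Cardinal.mk_insert_le ?_
  exact Cardinal.add_lt_of_lt (Cardinal.aleph0_le_aleph 2) (Cardinal.mk_Iio_toType_ord_lt t)
    (lt_two_iff.2 (Cardinal.one_lt_aleph0.le.trans (Cardinal.aleph0_le_aleph 1)))

/-- small subsets are bounded -/
theorem bounded {S : Set W} (hS : #S < Cardinal.aleph 2) : ∃ δ, ∀ s ∈ S, s < δ := by
  by_contra hcon
  push Not at hcon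
  have h1 : (⋃ s : S, Iic (s : W)) = univ := by
    ext t
    simp only [mem_iUnion, mem_Iic, mem_univ, iff_true]
    obtain ⟨s, hs, hts⟩ := hcon t
    exact ⟨⟨s, hs⟩, hts⟩
  have h2 := (Cardinal.card_iUnion_lt_iff_forall_of_isRegular (t := fun s : S => Iic (s : W))
    regular hS).2 fun s => mk_Iic_lt s
  rw [h1, Cardinal.mk_univ, mk_W] at h2
  exact lt_irrefl _ h2

theorem delta {ι : Type} (n : ℕ) : ∀ (J : Set ι) (G : ι → Finset W), #J = Cardinal.aleph 2 →
    (∀ ξ ∈ J, (G ξ).card = n) → ∃ (R : Finset W) (J' : Set ι), J' ⊆ J ∧ #J' = Cardinal.aleph 2 ∧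
      (∀ ξ ∈ J', R ⊆ G ξ) ∧ ∀ ξ ∈ J', ∀ η ∈ J', ξ ≠ η → Disjoint (G ξ \ R) (G η \ R) := by
  classical
  induction n with
  | zero =>
    intro J G hJ hG
    refine ⟨∅, J, Subset.rfl, hJ, fun _ _ => Finset.empty_subset _, fun ξ hξ η hη _ => ?_⟩
    rw [Finset.card_eq_zero.1 (hG ξ hξ)]
    simp
  | succ n ih =>
    intro J G hJ hG
    by_cases hcase : ∃ α, ¬ #{ξ ∈ J | α ∈ G ξ} < Cardinal.aleph 2
    · obtain ⟨α, hα⟩ := hcase
      have h1 : #{ξ ∈ J | α ∈ G ξ} = Cardinal.aleph 2 := by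
        refine le_antisymm ?_ (not_lt.1 hα)
        rw [← hJ]
        exact Cardinal.mk_le_mk_of_subset fun ξ hξ => hξ.1
      obtain ⟨R, J', h2, h3, h4, h5⟩ := ih {ξ ∈ J | α ∈ G ξ} (fun ξ => (G ξ).erase α) h1 (by
        intro ξ hξ
        rw [Finset.card_erase_of_mem hξ.2, hG ξ hξ.1]
        rfl)
      refine ⟨insert α R, J', fun ξ hξ => (h2 hξ).1, h3, fun ξ hξ => ?_, fun ξ hξ η hη hne => ?_⟩
      · intro β hβ
        rcases Finset.mem_insert.1 hβ with rfl | hβ
        · exact (h2 hξ).2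
        · exact Finset.mem_of_mem_erase (h4 ξ hξ hβ)
      · have h6 : ∀ ζ, G ζ \ insert α R = (G ζ).erase α \ R := by
          intro ζ
          ext β
          simp only [Finset.mem_sdiff, Finset.mem_insert, Finset.mem_erase, not_or]
          tauto
        rw [h6, h6]
        exact h5 ξ hξ η hη hne
    · push Not at hcase
      let S : Set (Set ι) := {M | M ⊆ J ∧ ∀ ξ ∈ M, ∀ η ∈ M, ξ ≠ η → Disjoint (G ξ) (G η)}
      obtain ⟨M, hM⟩ := zorn_subset S (by
        intro c hc hchain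
        refine ⟨⋃₀ c, ⟨sUnion_subset fun M hM => (hc hM).1, ?_⟩, fun M hM =>
          subset_sUnion_of_mem hM⟩
        rintro ξ ⟨M1, hM1, hξ⟩ η ⟨M2, hM2, hη⟩ hne
        rcases hchain.total hM1 hM2 with h | h
        · exact (hc hM2).2 ξ (h hξ) η hη hne
        · exact (hc hM1).2 ξ hξ η (h hη) hne)
      refine ⟨∅, M, hM.prop.1, ?_, fun _ _ => Finset.empty_subset _, fun ξ hξ η hη hne => by
        simpa using hM.prop.2 ξ hξ η hη hne⟩
      refine le_antisymm ?_ ?_
      · rw [← hJ]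
        exact Cardinal.mk_le_mk_of_subset hM.prop.1
      · by_contra hcon
        push Not at hcon
        have h1 : #(⋃ ξ : M, (G ξ : Set W)) < Cardinal.aleph 2 := by
          refine (Cardinal.card_iUnion_lt_iff_forall_of_isRegular regular hcon).2 fun ξ => ?_
          exact lt_of_lt_of_le (Cardinal.lt_aleph0_of_finite _) (Cardinal.aleph0_le_aleph 2)
        have h2 : J ⊆ ⋃ α : (⋃ ξ : M, (G ξ : Set W)), {ξ ∈ J | (α : W) ∈ G ξ} := by
          intro ξ hξ
          by_cases hξM : ξ ∈ M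
          · obtain ⟨α, hα⟩ : (G ξ).Nonempty := by
              rw [← Finset.card_pos, hG ξ hξ]
              exact Nat.succ_pos n
            exact mem_iUnion.2 ⟨⟨α, mem_iUnion.2 ⟨⟨ξ, hξM⟩, hα⟩⟩, hξ, hα⟩
          · have h3 : ¬ insert ξ M ∈ S := fun h => hξM (hM.le_of_ge h (subset_insert _ _)
              (mem_insert _ _))
            have h4 : ∃ η ∈ M, ¬ Disjoint (G ξ) (G η) := by
              by_contra hcon2
              push Not at hcon2
              refine h3 ⟨insert_subset hξ hM.prop.1, ?_⟩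
              intro ζ hζ η hη hne
              rcases mem_insert_iff.1 hζ with h1' | h1' <;>
                rcases mem_insert_iff.1 hη with h2' | h2'
              · exact absurd (h1'.trans h2'.symm) hne
              · rw [h1']
                exact hcon2 η h2'
              · rw [h2']
                exact (hcon2 ζ h1').symm
              · exact hM.prop.2 ζ h1' η h2' hne
            obtain ⟨η, hη, hdis⟩ := h4
            obtain ⟨α, hα1, hα2⟩ := Finset.not_disjoint_iff.1 hdis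
            exact mem_iUnion.2 ⟨⟨α, mem_iUnion.2 ⟨⟨η, hη⟩, hα2⟩⟩, hξ, hα1⟩
        have h3 := (Cardinal.card_iUnion_lt_iff_forall_of_isRegular
          (t := fun α : (⋃ ξ : M, (G ξ : Set W)) => {ξ ∈ J | (α : W) ∈ G ξ}) regular h1).2
          fun α => hcase α
        have h4 := lt_of_le_of_lt (Cardinal.mk_le_mk_of_subset h2) h3
        rw [hJ] at h4
        exact lt_irrefl _ h4

/-! ### The two posets -/

/-- filled pairs -/
def r0 (a b : W → Set ℕ) (α β : W) : Prop := a α ∩ b β = ∅ ∧ a β ∩ b α = ∅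

/-- crossing pairs -/
def r1 (a b : W → Set ℕ) (α β : W) : Prop := ¬ r0 a b α β

theorem r0_symm (a b : W → Set ℕ) (α β : W) (h : r0 a b α β) : r0 a b β α := ⟨h.2, h.1⟩

theorem r1_symm (a b : W → Set ℕ) (α β : W) (h : r1 a b α β) : r1 a b β α :=
  fun h' => h (r0_symm a b β α h')

theorem cell_r1 {a b : W → Set ℕ} (hab : IsGap a b) :
    cell (Cl (r1 a b)) ≤ Cardinal.aleph 1 := by
  classical
  refine cell_le (Cardinal.aleph0_le_aleph 1) fun A hA => ?_
  rw [← lt_two_iff]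
  by_contra hcon
  obtain ⟨A0, hA0, hcard⟩ := Cardinal.le_mk_iff_exists_subset.1 (not_lt.1 hcon)
  -- fixed size
  have h1 : ∃ n, ¬ #{F ∈ A0 | (fs F).card = n} < Cardinal.aleph 2 := by
    by_contra hc
    push Not at hc
    have h2 := (Cardinal.card_iUnion_lt_iff_forall_of_isRegular
      (t := fun n : ℕ => {F ∈ A0 | (fs F).card = n}) regular (by
        rw [Cardinal.mk_nat]
        exact lt_two_iff.2 (Cardinal.aleph0_le_aleph 1))).2 hc
    have h3 : A0 ⊆ ⋃ n : ℕ, {F ∈ A0 | (fs F).card = n} := fun F hF => mem_iUnion.2 ⟨_, hF, rfl⟩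
    have h4 := lt_of_le_of_lt (Cardinal.mk_le_mk_of_subset h3) h2
    rw [hcard] at h4
    exact lt_irrefl _ h4
  obtain ⟨n, hn⟩ := h1
  have hn' : #{F ∈ A0 | (fs F).card = n} = Cardinal.aleph 2 := by
    refine le_antisymm ?_ (not_lt.1 hn)
    rw [← hcard]
    exact Cardinal.mk_le_mk_of_subset fun F hF => hF.1
  obtain ⟨R, J, hJ, hJcard, hR, hdis⟩ := delta n _ fs hn' (fun F hF => hF.2)
  have hanti : ∀ F ∈ J, ∀ G ∈ J, F ≠ G → ∃ α ∈ fs F \ R, ∃ β ∈ fs G \ R, r0 a b α β := by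
    intro F hF G hG hne
    have h1 := hA F (hA0 (hJ hF).1) G (hA0 (hJ hG).1) hne
    rw [compat_iff (r1_symm a b)] at h1
    push Not at h1
    obtain ⟨α, hα, β, hβ, hne', h2⟩ := h1
    have h3 : r0 a b α β := by
      by_contra h
      exact h2 h
    refine ⟨α, Finset.mem_sdiff.2 ⟨hα, fun hαR => ?_⟩, β, Finset.mem_sdiff.2 ⟨hβ, fun hβR => ?_⟩,
      h3⟩
    · exact (OrderDual.ofDual G).2 α (hR G hG hαR) β hβ hne' h3
    · exact (OrderDual.ofDual F).2 α hα β (hR F hF hβR) hne' h3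
  have hAB : ∀ F ∈ J, ∀ G ∈ J, ∀ k, (∀ α ∈ fs F \ R, k ∈ a α) → (∀ α ∈ fs G \ R, k ∈ b α) →
      False := by
    intro F hF G hG k h1 h2
    by_cases hFG : F = G
    · subst hFG
      have h3 : ∃ H ∈ J, F ≠ H := by
        by_contra hc
        push Not at hc
        have h4 : J ⊆ {F} := fun H hH => (hc H hH).symm
        have h5 := Cardinal.mk_le_mk_of_subset h4
        rw [hJcard, Cardinal.mk_singleton] at h5
        exact absurd (h5.trans_lt Cardinal.one_lt_aleph0) (not_lt.2 (Cardinal.aleph0_le_aleph 2))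
      obtain ⟨H, hH, hne⟩ := h3
      obtain ⟨α, hα, -⟩ := hanti F hF H hH hne
      have h4 : k ∈ a α ∩ b α := ⟨h1 α hα, h2 α hα⟩
      rw [hab.2.1 α] at h4
      exact h4
    · obtain ⟨α, hα, β, hβ, h3, -⟩ := hanti F hF G hG hFG
      have h4 : k ∈ a α ∩ b β := ⟨h1 α hα, h2 β hβ⟩
      rw [h3] at h4
      exact h4
  refine hab.2.2 ⟨{k | ∃ F ∈ J, ∀ α ∈ fs F \ R, k ∈ a α}, fun γ => ?_⟩
  have h1 : ∃ F ∈ J, ∀ α ∈ fs F \ R, γ < α := by
    by_contra hc
    push Not at hc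
    have hW : Nonempty W := ⟨γ⟩
    choose! g hg hgγ using hc
    have h2 : Function.Injective fun F : J => (⟨g F, hgγ F F.2⟩ : Iic γ) := by
      intro F G hFG
      by_contra hne
      have h3 : g F = g G := congrArg Subtype.val hFG
      have h4 := hdis F F.2 G G.2 (fun h => hne (Subtype.ext h))
      exact Finset.disjoint_left.1 h4 (hg F F.2) (h3 ▸ hg G G.2)
    have h3 := Cardinal.mk_le_of_injective h2
    rw [hJcard] at h3
    exact absurd h3 (not_le.2 (mk_Iic_lt γ))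
  obtain ⟨F, hF, hFγ⟩ := h1
  constructor
  · refine ((fs F \ R).finite_toSet.biUnion (t := fun α => a γ \ a α) fun α hα =>
      (hab.1 γ α (hFγ α hα)).1).subset ?_
    rintro k ⟨hk, hkC⟩
    by_contra hc
    refine hkC ⟨F, hF, fun α hα => ?_⟩
    by_contra hkα
    exact hc (mem_biUnion hα ⟨hk, hkα⟩)
  · refine ((fs F \ R).finite_toSet.biUnion (t := fun α => b γ \ b α) fun α hα =>
      (hab.1 γ α (hFγ α hα)).2).subset ?_
    rintro k ⟨hk, G, hG, hkG⟩
    by_contra hc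
    refine hAB G hG F hF k hkG fun α hα => ?_
    by_contra hkα
    exact hc (mem_biUnion hα ⟨hk, hkα⟩)

theorem aleph0_mem_spec {a b : W → Set ℕ} (hab : IsGap a b) : ℵ₀ ∈ spec (Cl (r0 a b)) := by
  classical
  refine ⟨le_rfl, fun Q _ hQ => cell_le le_rfl fun A hA => ?_⟩
  by_contra hcon
  have h0 : Cardinal.aleph 1 ≤ #A := by
    rw [← Cardinal.succ_aleph0]
    exact Order.succ_le_of_lt (not_le.1 hcon)
  obtain ⟨A', hA', hcard⟩ := Cardinal.le_mk_iff_exists_subset.1 h0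
  have hanti : Anti A' := fun p hp q hq => hA p (hA' hp) q (hA' hq)
  have h1 : #(⋃ x : A', (fs x.1.1 : Set W)) < Cardinal.aleph 2 := by
    refine (Cardinal.card_iUnion_lt_iff_forall_of_isRegular regular ?_).2 fun x => ?_
    · rw [hcard, lt_two_iff]
    · exact lt_of_lt_of_le (Cardinal.lt_aleph0_of_finite _) (Cardinal.aleph0_le_aleph 2)
  obtain ⟨δ, hδ⟩ := bounded h1
  have h2 : ∀ x : A', ∃ n, ∀ γ ∈ fs x.1.1, ∀ k, n ≤ k → (k ∈ a γ → k ∈ a δ) ∧
      (k ∈ b γ → k ∉ a δ) := by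
    intro x
    have h3 : ((⋃ γ ∈ fs x.1.1, (a γ \ a δ)) ∪ ⋃ γ ∈ fs x.1.1, (b γ \ b δ)).Finite := by
      refine (Set.Finite.biUnion (fs x.1.1).finite_toSet fun γ hγ => ?_).union
        (Set.Finite.biUnion (fs x.1.1).finite_toSet fun γ hγ => ?_)
      · exact (hab.1 γ δ (hδ γ (mem_iUnion.2 ⟨x, hγ⟩))).1
      · exact (hab.1 γ δ (hδ γ (mem_iUnion.2 ⟨x, hγ⟩))).2
    obtain ⟨n, hn⟩ := h3.bddAbove
    refine ⟨n + 1, fun γ hγ k hk => ⟨fun hka => ?_, fun hkb hka => ?_⟩⟩
    · by_contra hc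
      have := hn (Or.inl (mem_biUnion hγ ⟨hka, hc⟩))
      omega
    · by_cases hkb' : k ∈ b δ
      · have h4 : k ∈ a δ ∩ b δ := ⟨hka, hkb'⟩
        rw [hab.2.1 δ] at h4
        exact h4
      · have := hn (Or.inr (mem_biUnion hγ ⟨hkb, hkb'⟩))
        omega
  choose n hn using h2
  let φ : A' → ℕ × Finset ℕ × Finset ℕ := fun x => (n x,
    (Finset.range (n x)).filter (fun k => ∃ γ ∈ fs x.1.1, k ∈ a γ),
    (Finset.range (n x)).filter (fun k => ∃ γ ∈ fs x.1.1, k ∈ b γ))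
  have h3 := count le_rfl hQ hanti (Φ := ℕ × Finset ℕ × Finset ℕ) Cardinal.mk_le_aleph0 φ (by
    intro x y hxy
    have e1 : n x = n y := congrArg Prod.fst hxy
    have e2 : (Finset.range (n x)).filter (fun k => ∃ γ ∈ fs x.1.1, k ∈ a γ) =
      (Finset.range (n y)).filter (fun k => ∃ γ ∈ fs y.1.1, k ∈ a γ) :=
      congrArg (fun p => p.2.1) hxy
    have e3 : (Finset.range (n x)).filter (fun k => ∃ γ ∈ fs x.1.1, k ∈ b γ) =
      (Finset.range (n y)).filter (fun k => ∃ γ ∈ fs y.1.1, k ∈ b γ) :=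
      congrArg (fun p => p.2.2) hxy
    have key : ∀ (z : A') (γ : W), γ ∈ fs z.1.1 → ∀ γ' ∈ fs z.1.1, a γ ∩ b γ' = ∅ := by
      intro z γ hγ γ' hγ'
      by_cases hg : γ = γ'
      · subst hg
        exact hab.2.1 γ
      · exact ((OrderDual.ofDual z.1.1).2 γ hγ γ' hγ' hg).1
    have main : ∀ α ∈ fs x.1.1, ∀ β ∈ fs y.1.1, a α ∩ b β = ∅ := by
      intro α hα β hβ
      rw [eq_empty_iff_forall_notMem]
      rintro k ⟨hka, hkb⟩
      by_cases hk : n x ≤ k
      · exact (hn y β hβ k (e1 ▸ hk)).2 hkb ((hn x α hα k hk).1 hka)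
      · have h4 : k ∈ (Finset.range (n x)).filter (fun k => ∃ γ ∈ fs x.1.1, k ∈ a γ) :=
          Finset.mem_filter.2 ⟨Finset.mem_range.2 (not_le.1 hk), α, hα, hka⟩
        rw [e2] at h4
        obtain ⟨-, γ, hγ, hkγ⟩ := Finset.mem_filter.1 h4
        have h5 : k ∈ a γ ∩ b β := ⟨hkγ, hkb⟩
        rw [key y γ hγ β hβ] at h5
        exact h5
    have main' : ∀ α ∈ fs x.1.1, ∀ β ∈ fs y.1.1, a β ∩ b α = ∅ := by
      intro α hα β hβ
      rw [eq_empty_iff_forall_notMem]
      rintro k ⟨hka, hkb⟩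
      by_cases hk : n x ≤ k
      · exact (hn x α hα k hk).2 hkb ((hn y β hβ k (e1 ▸ hk)).1 hka)
      · have h4 : k ∈ (Finset.range (n x)).filter (fun k => ∃ γ ∈ fs x.1.1, k ∈ b γ) :=
          Finset.mem_filter.2 ⟨Finset.mem_range.2 (not_le.1 hk), α, hα, hkb⟩
        rw [e3] at h4
        obtain ⟨-, γ, hγ, hkγ⟩ := Finset.mem_filter.1 h4
        have h5 : k ∈ a β ∩ b γ := ⟨hka, hkγ⟩
        rw [key y β hβ γ hγ] at h5
        exact h5
    rw [compat_iff (r0_symm a b)]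
    exact fun α hα β hβ _ => ⟨main α hα β hβ, main' α hα β hβ⟩)
  rw [hcard] at h3
  exact absurd h3 (not_le.2 Cardinal.aleph0_lt_aleph_one)

/-- If there is an `(ω₂, ω₂)`-gap in `P(ω)/fin`, then there is a poset `P` with
`pc(P) < ℵ₁ < d(P)` such that `ℵ₁` is not in the cellular spectrum of `P`. -/
theorem result (h : ∃ a b : W → Set ℕ, IsGap a b) :
    ∃ (P : Type) (_ : Preorder P) (κ : Cardinal.{0}), pc P < κ ∧ κ < dens P ∧ κ ∉ spec P := by
  obtain ⟨a, b, hab⟩ := h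
  have h1 : Cardinal.aleph 1 ∉ spec (Cl (r0 a b)) := by
    rintro ⟨-, h1⟩
    have h2 := h1 (Cl (r1 a b)) (cell_r1 hab)
    let g : W → Cl (r0 a b) × Cl (r1 a b) := fun α => (sing _ α, sing _ α)
    have hg : Function.Injective g := by
      intro α β hαβ
      have h3 : ({α} : Finset W) = {β} := 
        congrArg (fun p : Cl (r0 a b) × Cl (r1 a b) => fs p.1) hαβ
      exact Finset.singleton_injective h3
    have h3 : Anti (range g) := by
      rintro _ ⟨α, rfl⟩ _ ⟨β, rfl⟩ hne ⟨⟨u, v⟩, hu, hv⟩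
      have hαβ : α ≠ β := by
        rintro rfl
        exact hne rfl
      have h4 : Compat (sing (r0 a b) α) (sing (r0 a b) β) := ⟨u, hu.1, hv.1⟩
      have h5 : Compat (sing (r1 a b) α) (sing (r1 a b) β) := ⟨v, hu.2, hv.2⟩
      rw [compat_iff (r0_symm a b)] at h4
      rw [compat_iff (r1_symm a b)] at h5
      exact h5 α (Finset.mem_singleton_self α) β (Finset.mem_singleton_self β) hαβ
        (h4 α (Finset.mem_singleton_self α) β (Finset.mem_singleton_self β) hαβ)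
    have h4 := (le_cell h3).trans h2
    rw [Cardinal.mk_range_eq g hg, mk_W] at h4
    exact absurd (lt_two_iff.2 h4) (lt_irrefl _)
  refine ⟨Cl (r0 a b), inferInstance, Cardinal.aleph 1, ?_,
    lt_dens (Cardinal.aleph0_le_aleph 1) h1, h1⟩
  exact lt_of_le_of_lt (csInf_le' (aleph0_mem_spec hab)) Cardinal.aleph0_lt_aleph_one

end Pool.Agent.Results.MP_3223b9_lc.GapPoset
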